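import Pool.Agent.N367.LE.Stm
import Pool.Agent.H419R2.B7

/-! Project LE (helper367): the product of two twisted L-series (helper434), after `H419R2.B5`, `B6`, `B7`. -/

set_option autoImplicit false

namespace Pool.Agent.N434.LE

open H419R2 Pool.Agent.N367.LE Finset Filter Topology Polynomial

/-- absolutely convergent double sums -/
theorem summable_pairs2 {c : ℕ × ℕ → ℝ} (h1 : ∀ a, c (0, a) = 0) (h2 : ∀ b, c (b, 0) = 0) {Φ : ℝ}
    (hΦ : ∀ x, |c x| ≤ Φ) {t : ℝ} (ht : 0 < t) :
    Summable (fun x : ℕ × ℕ => c x * Real.exp (-(t * (x.2 * x.1 : ℕ)))) := by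
  have hΦ0 : 0 ≤ Φ := (abs_nonneg _).trans (hΦ 0)
  set ρ := Real.exp (-(t / 2)) with hρ
  have hρ0 : 0 < ρ := Real.exp_pos _
  have hρ1 : ρ < 1 := by rw [hρ, Real.exp_lt_one_iff]; linarith
  have hg : Summable (fun x : ℕ × ℕ => ρ ^ x.1 * ρ ^ x.2) :=
    (summable_geometric_of_lt_one hρ0.le hρ1).mul_of_nonneg
      (summable_geometric_of_lt_one hρ0.le hρ1) (fun n => by positivity) (fun n => by positivity)
  apply Summable.of_norm_bounded (hg.mul_left Φ)
  rintro ⟨b, a⟩
  simp only
  rw [Real.norm_eq_abs]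
  by_cases hb : b = 0
  · subst hb
    rw [h1]
    simp only [zero_mul, abs_zero]
    positivity
  by_cases ha : a = 0
  · subst ha
    rw [h2]
    simp only [zero_mul, abs_zero]
    positivity
  rw [abs_mul, abs_of_pos (Real.exp_pos _)]
  have hab : ((a : ℝ) + b) / 2 ≤ (a * b : ℕ) := by
    have ha1 : (1 : ℝ) ≤ a := by exact_mod_cast Nat.one_le_iff_ne_zero.mpr ha
    have hb1 : (1 : ℝ) ≤ b := by exact_mod_cast Nat.one_le_iff_ne_zero.mpr hb
    push_cast
    nlinarith
  have he : Real.exp (-(t * (a * b : ℕ))) ≤ ρ ^ b * ρ ^ a := by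
    rw [hρ, ← Real.exp_nat_mul, ← Real.exp_nat_mul, ← Real.exp_add]
    apply Real.exp_le_exp.mpr
    nlinarith
  exact mul_le_mul (hΦ _) he (Real.exp_pos _).le hΦ0

/-- the sum over the divisors -/
theorem Lside2_hasSum {p q : ℕ} (hp : 1 < p) (hq : 1 < q) {f : ℕ → ℝ} (hf0 : f 0 = 0) {Φ : ℝ}
    (hΦ : ∀ j, |f j| ≤ Φ) {t : ℝ} (ht : 0 < t) :
    HasSum (fun n : ℕ => f n * Real.exp (-(t * n)) * (gg p q n : ℝ))
      (∑' b : ℕ, (jacobiSym b p : ℝ) * ∑' a : ℕ, ((jacobiSym a q : ℝ) * f (a * b)) *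
        Real.exp (-(t * (a * b : ℕ)))) := by
  have hΦ0 : 0 ≤ Φ := (abs_nonneg _).trans (hΦ 0)
  have hs := summable_pairs2 (c := fun x => (jacobiSym x.1 p : ℝ) * ((jacobiSym x.2 q : ℝ) * f (x.2 * x.1)))
    (fun a => by simp only [Nat.cast_zero]; rw [jac_zero hp]; simp)
    (fun b => by simp only [Nat.cast_zero]; rw [jac_zero hq]; simp) (Φ := Φ) (fun x => by
      rw [abs_mul, abs_mul]
      calc _ ≤ 1 * (1 * Φ) := by
            gcongr
            · exact jac_abs _ _
            · exact jac_abs _ _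
            · exact hΦ _
        _ = Φ := by ring) ht
  have h1 := hs.hasSum.tsum_fiberwise (fun x : ℕ × ℕ => x.2 * x.1)
  have h2 : ∑' x : ℕ × ℕ, (jacobiSym x.1 p : ℝ) * ((jacobiSym x.2 q : ℝ) * f (x.2 * x.1)) *
      Real.exp (-(t * (x.2 * x.1 : ℕ))) =
      ∑' b : ℕ, (jacobiSym b p : ℝ) * ∑' a : ℕ, ((jacobiSym a q : ℝ) * f (a * b)) *
        Real.exp (-(t * (a * b : ℕ))) := by
    rw [hs.tsum_prod]
    apply tsum_congr
    intro b
    simp only [mul_assoc]
    exact tsum_mul_left
  rw [h2] at h1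
  have heq : (fun n : ℕ => f n * Real.exp (-(t * n)) * (gg p q n : ℝ)) =
      (fun c => ∑' (x : ↑((fun x : ℕ × ℕ => x.2 * x.1) ⁻¹' {c})),
        (jacobiSym x.1.1 p : ℝ) * ((jacobiSym x.1.2 q : ℝ) * f (x.1.2 * x.1.1)) *
          Real.exp (-(t * (x.1.2 * x.1.1 : ℕ)))) := by
    funext n
    have h3 : ∀ x : ↑((fun x : ℕ × ℕ => x.2 * x.1) ⁻¹' {n}),
        (jacobiSym x.1.1 p : ℝ) * ((jacobiSym x.1.2 q : ℝ) * f (x.1.2 * x.1.1)) *
          Real.exp (-(t * (x.1.2 * x.1.1 : ℕ))) =
        (f n * Real.exp (-(t * n))) * ((jacobiSym x.1.1 p : ℝ) * (jacobiSym x.1.2 q : ℝ)) := by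
      rintro ⟨x, hx⟩
      have hx' : x.2 * x.1 = n := hx
      simp only [hx']
      ring
    rw [tsum_congr h3, tsum_mul_left]
    by_cases hn : n = 0
    · subst hn
      rw [hf0]; simp
    · congr 1
      have h4 : ((fun x : ℕ × ℕ => x.2 * x.1) ⁻¹' {n}) = (n.divisorsAntidiagonal : Set (ℕ × ℕ)) := by
        ext x
        simp only [Set.mem_preimage, Set.mem_singleton_iff, Finset.mem_coe,
          Nat.mem_divisorsAntidiagonal]
        constructor
        · intro h; exact ⟨by rw [mul_comm]; exact h, hn⟩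
        · intro h; rw [mul_comm]; exact h.1
      rw [h4, Finset.tsum_subtype' n.divisorsAntidiagonal
        (fun x : ℕ × ℕ => (jacobiSym x.1 p : ℝ) * (jacobiSym x.2 q : ℝ))]
      unfold gg
      push_cast
      exact (Nat.sum_divisorsAntidiagonal
        (fun x y => (jacobiSym (x : ℤ) p : ℝ) * (jacobiSym (y : ℤ) q : ℝ))).symm
  rw [heq]
  exact h1

theorem exists_nonres {p : ℕ} (hp : p.Prime) (hp2 : p ≠ 2) : ∃ c : ℕ, jacobiSym c p = -1 := by
  have := Fact.mk hp
  obtain ⟨a, ha⟩ := FiniteField.exists_nonsquare (F := ZMod p) (by rw [ZMod.ringChar_zmod_n]; exact hp2)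
  refine ⟨a.val, ?_⟩
  rw [← jacobiSym.legendreSym.to_jacobiSym, legendreSym.eq_neg_one_iff]
  push_cast
  rw [ZMod.natCast_zmod_val]
  exact ha

theorem tw_mean2 {q D : ℕ} (hq : 0 < q) (hcop : q.Coprime D) (hD : D.Prime) (hD2 : D ≠ 2) (β : ℕ) :
    ∑ l ∈ range (q * D), tw q D β l = 0 := by
  have hQ : 0 < q * D := Nat.mul_pos hq hD.pos
  have : NeZero (q * D) := ⟨hQ.ne'⟩
  obtain ⟨c0, hJ⟩ := exists_nonres hD hD2
  obtain ⟨c, hc1, hc2⟩ := Nat.chineseRemainder hcop 1 c0
  have hcq : c.Coprime q := by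
    have := hc1.gcd_eq
    rw [Nat.gcd_one_left] at this
    exact this
  have hcD : c.Coprime D := by
    have := hc2.gcd_eq
    have h2 : Nat.gcd c0 D = 1 := by
      by_contra h
      have h3 : jacobiSym (c0 : ℤ) D = 0 := by
        rw [jacobiSym.eq_zero_iff]
        refine ⟨hD.ne_zero, ?_⟩
        rw [Int.gcd_natCast_natCast]
        exact h
      rw [hJ] at h3
      norm_num at h3
    rw [h2] at this
    exact this
  have hcQ : c.Coprime (q * D) := Nat.Coprime.mul_right hcq hcD
  rw [sum_range_zmod]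
  set u := ZMod.unitOfCoprime c hcQ with hu
  have h1 : ∑ x : ZMod (q * D), tw q D β x.val = ∑ x : ZMod (q * D), tw q D β ((u : ZMod (q * D)) * x).val :=
    (Equiv.sum_comp (Units.mulLeft u) (fun x : ZMod (q * D) => tw q D β x.val)).symm
  have hper : ∀ n : ℕ, tw q D β (n % (q * D)) = tw q D β n := by
    intro n
    have h3 : ∀ k m : ℕ, tw q D β (m + (q * D) * k) = tw q D β m := by
      intro k
      induction k with
      | zero => intro m; simp
      | succ k ih => intro m; rw [Nat.mul_succ, ← add_assoc, tw_periodic, ih]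
    conv_rhs => rw [← Nat.mod_add_div n (q * D), h3]
  have h2 : ∀ x : ZMod (q * D), tw q D β ((u : ZMod (q * D)) * x).val = - tw q D β x.val := by
    intro x
    have h4 : ((u : ZMod (q * D)) * x).val = (c * x.val) % (q * D) := by
      rw [hu, ZMod.coe_unitOfCoprime, ZMod.val_mul, ZMod.val_natCast, Nat.mod_mul_mod]
    rw [h4, hper]
    unfold tw
    have h5 : (c * x.val) % q = x.val % q := by
      have : c * x.val ≡ 1 * x.val [MOD q] := hc1.mul_right _
      rw [one_mul] at this
      exact this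
    have h6 : jacobiSym ((c * x.val : ℕ) : ℤ) D = - jacobiSym x.val D := by
      rw [Nat.cast_mul, jacobiSym.mul_left]
      have h7 : jacobiSym (c : ℤ) D = jacobiSym (c0 : ℤ) D := by
        apply jacobiSym.mod_left'
        have := hc2
        exact_mod_cast this
      rw [h7, hJ]; ring
    rw [h5, h6]
    split_ifs <;> simp
  simp only [h2, Finset.sum_neg_distrib] at h1
  linarith

/-- the coefficients of the inner sum -/
noncomputable def ph (N q : ℕ) (F : ZMod N → ℝ) (β a : ℕ) : ℝ := (jacobiSym a q : ℝ) * F (a * β)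

theorem ph_per {N q : ℕ} (F : ZMod N → ℝ) (β j : ℕ) : ph N q F β (j + N * q) = ph N q F β j := by
  unfold ph
  have h2 : jacobiSym ((j + N * q : ℕ) : ℤ) q = jacobiSym j q := by
    apply jacobiSym.mod_left'
    push_cast
    exact Int.add_mul_emod_self_right _ _ _
  rw [h2]
  congr 2
  simp

theorem ph_refl {N q : ℕ} (hq : q % 4 = 1) {F : ZMod N → ℝ} (hodd : ∀ x, F (-x) = -F x)
    (β : ℕ) {i : ℕ} (hi : i ≤ N * q) : ph N q F β (N * q - i) = -ph N q F β i := by
  unfold ph
  have h1 : ((N * q - i : ℕ) : ZMod N) = -(i : ZMod N) := by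
    rw [Nat.cast_sub hi]
    simp
  have h2 : jacobiSym ((N * q - i : ℕ) : ℤ) q = jacobiSym i q := by
    have h3 : jacobiSym ((N * q - i : ℕ) : ℤ) q = jacobiSym (-(i : ℤ)) q := by
      apply jacobiSym.mod_left'
      rw [Nat.cast_sub hi]
      push_cast
      rw [sub_eq_add_neg, add_comm]
      exact Int.add_mul_emod_self_right _ _ _
    rw [h3, jacobiSym.neg _ (Nat.odd_iff.2 (by omega)), ZMod.χ₄_nat_one_mod_four hq, one_mul]
  rw [h1, h2, neg_mul, hodd]
  ring

theorem ph_mean {N q : ℕ} (hN : 0 < N) (hq1 : 1 < q) (hq : q % 4 = 1) {F : ZMod N → ℝ}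
    (hodd : ∀ x, F (-x) = -F x) (β : ℕ) : ∑ i ∈ range (N * q), ph N q F β i = 0 := by
  have hQ : 0 < N * q := Nat.mul_pos hN (by omega)
  obtain ⟨n, hn⟩ : ∃ n, N * q = n + 1 := ⟨N * q - 1, by omega⟩
  have h0 : ph N q F β 0 = 0 := by
    unfold ph
    rw [Nat.cast_zero, jac_zero hq1]
    simp
  have h1 : ∑ i ∈ range n, ph N q F β (i + 1) = 0 := by
    have h2 : ∑ i ∈ range n, ph N q F β (n - 1 - i + 1) = ∑ i ∈ range n, ph N q F β (i + 1) :=
      Finset.sum_range_reflect (fun i => ph N q F β (i + 1)) n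
    have h3 : ∑ i ∈ range n, ph N q F β (n - 1 - i + 1) = ∑ i ∈ range n, -ph N q F β (i + 1) := by
      refine sum_congr rfl fun i hi => ?_
      have hi' := mem_range.1 hi
      rw [← ph_refl hq hodd β (by omega)]
      congr 1
      omega
    rw [h3, sum_neg_distrib] at h2
    linarith
  rw [hn, sum_range_succ', h1, h0, add_zero]

theorem an1 : S_AN1 := by
  intro p q N _ hp hq hpq hp4 hq4 hcop F hodd
  have hN : 0 < N := Nat.pos_of_ne_zero (NeZero.ne N)
  have hp1 := hp.one_lt
  have hq1 := hq.one_lt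
  have hcp : N.Coprime p := Nat.Coprime.coprime_mul_right_right hcop
  have hNp : 0 < N * p := Nat.mul_pos hN hp.pos
  have hNq : 0 < N * q := Nat.mul_pos hN hq.pos
  have hNr : (N : ℝ) ≠ 0 := by positivity
  have hpr : (p : ℝ) ≠ 0 := by
    have := hp.pos
    positivity
  have hqr : (q : ℝ) ≠ 0 := by
    have := hq.pos
    positivity
  have hF0 : F 0 = 0 := by
    have := hodd 0
    rw [neg_zero] at this
    linarith
  set Φ : ℝ := ∑ x : ZMod N, |F x| with hΦdef
  have hΦ : ∀ x, |F x| ≤ Φ := fun x =>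
    Finset.single_le_sum (f := fun x => |F x|) (fun _ _ => abs_nonneg _) (Finset.mem_univ x)
  have hΦ0 : 0 ≤ Φ := (abs_nonneg _).trans (hΦ 0)
  have hphΦ : ∀ β j, |ph N q F β j| ≤ Φ := by
    intro β j
    unfold ph
    rw [abs_mul]
    calc _ ≤ 1 * Φ := by
          gcongr
          · exact jac_abs _ _
          · exact hΦ _
      _ = Φ := one_mul _
  have hph0 : ∀ β, ph N q F β 0 = 0 := by
    intro β
    unfold ph
    rw [Nat.cast_zero, jac_zero hq1]
    simp
  have hmean := fun β => ph_mean hN hq1 hq4 hodd β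
  have htwm := fun β => tw_mean2 hN hcp hp (by rintro rfl; omega) β
  have hB := denp_ge hNq
  have htw0 : ∀ β, wM (N * p) (tw N p β) = 0 := by
    intro β
    unfold wM
    rw [htwm, zero_div]
  refine ⟨fun t => ∑' b : ℕ, (jacobiSym b p : ℝ) * ∑' a : ℕ, ((jacobiSym a q : ℝ) * F ((a * b : ℕ))) *
        Real.exp (-(t * (a * b : ℕ))), ?_, ?_⟩
  · intro t ht
    exact Lside2_hasSum (f := fun n => F n) hp1 hq1 (by rw [Nat.cast_zero]; exact hF0) (fun j => hΦ _) ht
  have hlim : Tendsto (fun t : ℝ => ∑ β ∈ range N, ∑' b : ℕ, tw N p β b *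
      qf (nump (N * q) (ph N q F β)) (denp (N * q)) 1 (t * b)) (𝓝[>] 0)
      (𝓝 (∑ β ∈ range N, -(wA (N * p) (tw N p β) 0 * qf (nump (N * q) (ph N q F β)) (denp (N * q)) 1 0))) := by
    apply tendsto_finsetSum
    intro β _
    exact twisted_limit hNp (tw_periodic N p β) (tw_abs N p β) (htw0 β)
      (X_dvd_nump (N * q) (hph0 β)) hB
  have hval : (∑ β ∈ range N, -(wA (N * p) (tw N p β) 0 *
      qf (nump (N * q) (ph N q F β)) (denp (N * q)) 1 0)) =
      (∑ l ∈ range (N * p), ∑ a ∈ range (N * q), (l : ℝ) * a * jacobiSym l p * jacobiSym a q *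
        F ((a * l : ℕ))) / ((N * p) * (N * q)) := by
    have h1 : ∀ β ∈ range N, -(wA (N * p) (tw N p β) 0 *
        qf (nump (N * q) (ph N q F β)) (denp (N * q)) 1 0) =
        (∑ l ∈ range (N * p), (l : ℝ) * tw N p β l * ∑ a ∈ range (N * q), a * ph N q F β a)
          / ((N * p) * (N * q)) := by
      intro β _
      rw [qf_zero hNq (hmean β)]
      have h2 : wA (N * p) (tw N p β) 0 = (∑ l ∈ range (N * p), (l : ℝ) * tw N p β l) / (N * p) := by
        unfold wA
        have h3 : ∀ l ∈ range (N * p), tw N p β (0 + l) * ((l : ℝ) / (N * p : ℕ) - 1 / 2) =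
            ((l : ℝ) * tw N p β l) / (N * p) - (1 / 2) * tw N p β l := by
          intro l _
          rw [zero_add]; push_cast; ring
        rw [Finset.sum_congr rfl h3, Finset.sum_sub_distrib, ← Finset.mul_sum,
          htwm, ← Finset.sum_div]
        ring
      rw [h2, ← Finset.sum_mul]
      push_cast
      field_simp
    rw [Finset.sum_congr rfl h1, ← Finset.sum_div, Finset.sum_comm]
    congr 1
    apply Finset.sum_congr rfl
    intro l _
    rw [Finset.sum_eq_single (l % N)]
    · have : tw N p (l % N) l = jacobiSym l p := by unfold tw; simp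
      rw [this, Finset.mul_sum]
      apply Finset.sum_congr rfl
      intro a _
      unfold ph
      have h5 : ((l % N : ℕ) : ZMod N) = (l : ZMod N) := ZMod.natCast_mod l N
      rw [h5]
      push_cast
      ring
    · intro β _ hne
      have : tw N p β l = 0 := by
        unfold tw; rw [if_neg (fun h => hne h.symm)]
      rw [this]; simp
    · intro h
      exact absurd (Finset.mem_range.mpr (Nat.mod_lt l hN)) h
  rw [← hval]
  refine hlim.congr' ?_
  filter_upwards [self_mem_nhdsWithin] with t ht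
  have ht' : (0 : ℝ) < t := ht
  rw [← Summable.tsum_finsetSum]
  · apply tsum_congr
    intro b
    rcases Nat.eq_zero_or_pos b with hb | hb
    · subst hb
      have hz : (jacobiSym ((0 : ℕ) : ℤ) p : ℝ) = 0 := by
        rw [Nat.cast_zero, jac_zero hp1]; simp
      rw [hz, zero_mul]
      apply Finset.sum_eq_zero
      intro β _
      have : tw N p β 0 = 0 := by
        unfold tw
        rw [hz, ite_self]
      rw [this, zero_mul]
    · rw [Finset.sum_eq_single (b % N)]
      · have h1 : tw N p (b % N) b = jacobiSym b p := by unfold tw; simp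
        rw [h1]
        congr 1
        have hb' : (0 : ℝ) < t * b := by
          have : (0 : ℝ) < b := by exact_mod_cast hb
          positivity
        rw [← tsum_periodic hNq (ph_per F _) (hmean _) (fun j => hphΦ _ _) hb']
        apply tsum_congr
        intro a
        unfold ph
        have h5 : ((b % N : ℕ) : ZMod N) = (b : ZMod N) := ZMod.natCast_mod b N
        rw [h5]
        push_cast
        congr 2
        ring
      · intro β _ hne
        have : tw N p β b = 0 := by
          unfold tw; rw [if_neg (fun h => hne h.symm)]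
        rw [this]; simp
      · intro h
        exact absurd (Finset.mem_range.mpr (Nat.mod_lt b hN)) h
  · intro β _
    exact twisted_summable (tw_abs N p β) (X_dvd_nump (N * q) (hph0 β)) hB ht'

end Pool.Agent.N434.LE
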