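import Pool.Agent.N502.FR.Stm

set_option autoImplicit false

/-! # Project FR, step HRM: the harmonic sum below a power of two -/

namespace Pool.Agent.N434.FRH

open Pool.Agent.N502.FR

theorem block (m : ℕ) : ∑ b ∈ Finset.Ico (1 : ℕ) (2 ^ m), (1 : ℝ) / (b : ℕ) ≤ m := by
  induction m with
  | zero => simp
  | succ m ih =>
    have h1 : (1 : ℕ) ≤ 2 ^ m := Nat.one_le_two_pow
    have h2 : (2 : ℕ) ^ m ≤ 2 ^ (m + 1) := Nat.pow_le_pow_right (by norm_num) (by omega)
    rw [← Finset.sum_Ico_consecutive _ h1 h2]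
    have h3 : ∑ b ∈ Finset.Ico ((2 : ℕ) ^ m) (2 ^ (m + 1)), (1 : ℝ) / (b : ℕ) ≤ 1 := by
      have h4 : ∀ b ∈ Finset.Ico ((2 : ℕ) ^ m) (2 ^ (m + 1)), (1 : ℝ) / (b : ℕ) ≤ 1 / (2 : ℝ) ^ m := by
        intro b hb
        have h5 := (Finset.mem_Ico.1 hb).1
        have h6 : ((2 : ℝ) ^ m) ≤ b := by exact_mod_cast h5
        have h7 : (0 : ℝ) < 2 ^ m := by positivity
        exact one_div_le_one_div_of_le h7 h6
      refine (Finset.sum_le_sum h4).trans ?_
      rw [Finset.sum_const, Nat.card_Ico, nsmul_eq_mul]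
      have h8 : 2 ^ (m + 1) - 2 ^ m = 2 ^ m := by
        rw [pow_succ]
        omega
      rw [h8]
      push_cast
      rw [mul_one_div, div_self (by positivity)]
    push_cast
    linarith

theorem main : S_HRM := by
  intro m B hm hB
  refine le_trans ?_ (block m)
  unfold p1
  apply Finset.sum_le_sum_of_subset_of_nonneg
  · intro b hb
    obtain ⟨h1, h2⟩ := Finset.mem_filter.1 hb
    exact Finset.mem_Ico.2 ⟨hB b h1, h2⟩
  · intro b _ _
    positivity

end Pool.Agent.N434.FRH
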