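import Pool.Agent.N804.LI.StmL

set_option autoImplicit false

/-! # Project LI, step LLP: Laplace integrals -/

namespace Pool.Agent.N434.LIL

open Filter Topology MeasureTheory Set Pool.Agent.N804.LI

theorem part1 (f : ℝ → ℝ) (hc : Continuous f) (h0 : ∀ y, 0 ≤ f y)
    (hC : ∃ C : ℝ, ∀ Y : ℝ, 1 ≤ Y → ∫ y in (0 : ℝ)..Y, f y ≤ C * Y) (w : ℝ) (hw : 0 < w) :
    IntegrableOn (fun u => f u * Real.exp (-(w * u))) (Ioi 0) := by
  obtain ⟨C, hC⟩ := hC
  have hcg : Continuous fun u => f u * Real.exp (-(w * u)) := by fun_prop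
  have hii : ∀ a b : ℝ, IntervalIntegrable (fun u => f u * Real.exp (-(w * u))) volume a b :=
    fun a b => hcg.intervalIntegrable a b
  have hs : Summable fun n : ℕ => C * ((n : ℝ) ^ 1 * Real.exp (-w * n)) +
      C * ((n : ℝ) ^ 0 * Real.exp (-w * n)) :=
    ((Real.summable_pow_mul_exp_neg_nat_mul 1 hw).mul_left C).add
      ((Real.summable_pow_mul_exp_neg_nat_mul 0 hw).mul_left C)
  have hterm : ∀ n : ℕ, ∫ u in (n : ℝ)..((n + 1 : ℕ) : ℝ), f u * Real.exp (-(w * u)) ≤
      C * ((n : ℝ) ^ 1 * Real.exp (-w * n)) + C * ((n : ℝ) ^ 0 * Real.exp (-w * n)) := by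
    intro n
    have hn : (n : ℝ) ≤ ((n + 1 : ℕ) : ℝ) := by push_cast; linarith
    have h1 : ∫ u in (n : ℝ)..((n + 1 : ℕ) : ℝ), f u * Real.exp (-(w * u)) ≤
        ∫ u in (n : ℝ)..((n + 1 : ℕ) : ℝ), f u * Real.exp (-w * n) := by
      apply intervalIntegral.integral_mono_on hn (hii _ _)
        ((hc.mul continuous_const).intervalIntegrable _ _)
      intro u hu
      apply mul_le_mul_of_nonneg_left _ (h0 u)
      apply Real.exp_le_exp.2
      nlinarith [hu.1]
    have h2 : ∫ u in (n : ℝ)..((n + 1 : ℕ) : ℝ), f u ≤ ∫ u in (0 : ℝ)..((n + 1 : ℕ) : ℝ), f u := by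
      rw [← intervalIntegral.integral_add_adjacent_intervals (hc.intervalIntegrable 0 n)
        (hc.intervalIntegrable n _)]
      have := intervalIntegral.integral_nonneg (μ := volume) (Nat.cast_nonneg (α := ℝ) n)
        (fun u _ => h0 u)
      linarith
    have h3 := hC ((n + 1 : ℕ) : ℝ) (by push_cast; linarith [Nat.cast_nonneg (α := ℝ) n])
    rw [intervalIntegral.integral_mul_const] at h1
    have h4 : 0 < Real.exp (-w * n) := Real.exp_pos _
    calc _ ≤ _ := h1
      _ ≤ (C * ((n + 1 : ℕ) : ℝ)) * Real.exp (-w * n) := by gcongr; exact h2.trans h3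
      _ = _ := by push_cast; ring
  have hnn : ∀ n : ℕ, 0 ≤ C * ((n : ℝ) ^ 1 * Real.exp (-w * n)) +
      C * ((n : ℝ) ^ 0 * Real.exp (-w * n)) := by
    intro n
    refine le_trans ?_ (hterm n)
    apply intervalIntegral.integral_nonneg (by push_cast; linarith)
    intro u _
    exact mul_nonneg (h0 u) (Real.exp_pos _).le
  have hint : ∀ b : ℝ, IntegrableOn (fun u => f u * Real.exp (-(w * u))) (Ioc 0 b) :=
    fun b => (hcg.integrableOn_Icc).mono_set Ioc_subset_Icc_self
  refine integrableOn_Ioi_of_intervalIntegral_norm_bounded (ι := ℕ) (l := atTop)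
    (b := fun n => (n : ℝ)) (∑' n : ℕ, (C * ((n : ℝ) ^ 1 * Real.exp (-w * n)) +
      C * ((n : ℝ) ^ 0 * Real.exp (-w * n)))) 0 (fun n => hint _) tendsto_natCast_atTop_atTop ?_
  refine Eventually.of_forall fun n => ?_
  have e1 : ∫ u in (0 : ℝ)..(n : ℝ), ‖f u * Real.exp (-(w * u))‖ =
      ∑ k ∈ Finset.range n, ∫ u in (k : ℝ)..((k + 1 : ℕ) : ℝ), f u * Real.exp (-(w * u)) := by
    rw [intervalIntegral.sum_integral_adjacent_intervals (a := fun k : ℕ => (k : ℝ))
      (fun k _ => hii _ _)]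
    simp only [Nat.cast_zero]
    apply intervalIntegral.integral_congr
    intro u _
    simp only
    rw [Real.norm_of_nonneg (mul_nonneg (h0 u) (Real.exp_pos _).le)]
  rw [e1]
  refine (Finset.sum_le_sum fun k _ => hterm k).trans ?_
  exact hs.sum_le_tsum _ fun k _ => hnn k

theorem part2 (f : ℝ → ℂ) (a : ℝ) (hf : Measurable f)
    (hi : ∀ w : ℝ, a < w → IntegrableOn (fun u : ℝ => f u * (Real.exp (-(w * u)) : ℂ)) (Ioi 0))
    (s : ℂ) (hs : a < s.re) : IntegrableOn (fun u : ℝ => f u * Complex.exp (-(s * u))) (Ioi 0) := by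
  have hexp : ∀ s : ℂ, Measurable fun u : ℝ => Complex.exp (-(s * u)) := fun s => by fun_prop
  refine Integrable.mono (hi s.re hs) (hf.mul (hexp s)).aestronglyMeasurable
    (Eventually.of_forall fun u => ?_)
  rw [norm_mul, norm_mul]
  apply mul_le_mul_of_nonneg_left _ (norm_nonneg _)
  rw [Complex.norm_exp, Complex.norm_real, Real.norm_of_nonneg (Real.exp_pos _).le]
  apply Real.exp_le_exp.2
  simp

theorem diff (f : ℝ → ℂ) (a : ℝ) (hf : Measurable f)
    (hi : ∀ w : ℝ, a < w → IntegrableOn (fun u : ℝ => f u * (Real.exp (-(w * u)) : ℂ)) (Ioi 0))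
    (s0 : ℂ) (hs0 : a < s0.re) :
    DifferentiableAt ℂ (fun s : ℂ => ∫ u in Ioi (0 : ℝ), f u * Complex.exp (-(s * u))) s0 := by
  have hexp : ∀ s : ℂ, Measurable fun u : ℝ => Complex.exp (-(s * u)) := fun s => by fun_prop
  obtain ⟨r, hr⟩ : ∃ r : ℝ, r = (s0.re - a) / 4 := ⟨_, rfl⟩
  have hr0 : 0 < r := by rw [hr]; linarith
  have hw' : a < s0.re - 2 * r := by rw [hr]; linarith
  have key := hasDerivAt_integral_of_dominated_loc_of_deriv_le (μ := volume.restrict (Ioi (0 : ℝ)))
    (F := fun (s : ℂ) (u : ℝ) => f u * Complex.exp (-(s * u)))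
    (F' := fun (s : ℂ) (u : ℝ) => f u * (Complex.exp (-(s * u)) * (-u)))
    (bound := fun u => (1 / r) * ‖f u * (Real.exp (-((s0.re - 2 * r) * u)) : ℂ)‖)
    (x₀ := s0) (s := Metric.ball s0 r) (Metric.ball_mem_nhds s0 hr0) ?_ ?_ ?_ ?_ ?_ ?_
  · exact key.2.differentiableAt
  · exact Eventually.of_forall fun s => (hf.mul (hexp s)).aestronglyMeasurable
  · exact part2 f a hf hi s0 hs0
  · have hm : Measurable fun u : ℝ => f u * (Complex.exp (-(s0 * u)) * (-(u : ℂ))) := by fun_prop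
    exact hm.aestronglyMeasurable
  · refine (ae_restrict_iff' measurableSet_Ioi).2 (Eventually.of_forall fun u hu s hs => ?_)
    have hu0 : 0 < u := hu
    have hre : s0.re - r ≤ s.re := by
      have h1 : |(s - s0).re| ≤ ‖s - s0‖ := Complex.abs_re_le_norm _
      have h2 : ‖s - s0‖ < r := by simpa [dist_eq_norm] using hs
      have h3 := (abs_le.1 (h1.trans h2.le)).1
      rw [Complex.sub_re] at h3
      linarith
    rw [norm_mul, norm_mul, norm_mul, Complex.norm_exp, norm_neg, Complex.norm_real,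
      Complex.norm_real, Real.norm_of_nonneg hu0.le, Real.norm_of_nonneg (Real.exp_pos _).le]
    have h1 : (-(s * (u : ℂ))).re = -(s.re * u) := by simp
    rw [h1]
    have h2 : Real.exp (-(s.re * u)) ≤ Real.exp (-((s0.re - 2 * r) * u)) * Real.exp (-(r * u)) := by
      rw [← Real.exp_add]
      apply Real.exp_le_exp.2
      nlinarith
    have h3 : Real.exp (-(r * u)) * u ≤ 1 / r := by
      rw [Real.exp_neg, le_div_iff₀ hr0, inv_mul_eq_div, div_mul_eq_mul_div, div_le_one
        (Real.exp_pos _)]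
      have := Real.add_one_le_exp (r * u)
      nlinarith
    have h4 : 0 < Real.exp (-((s0.re - 2 * r) * u)) := Real.exp_pos _
    calc ‖f u‖ * (Real.exp (-(s.re * u)) * u)
        ≤ ‖f u‖ * ((Real.exp (-((s0.re - 2 * r) * u)) * Real.exp (-(r * u))) * u) := by gcongr
      _ = ‖f u‖ * (Real.exp (-((s0.re - 2 * r) * u)) * (Real.exp (-(r * u)) * u)) := by ring
      _ ≤ ‖f u‖ * (Real.exp (-((s0.re - 2 * r) * u)) * (1 / r)) := by gcongr
      _ = 1 / r * (‖f u‖ * Real.exp (-((s0.re - 2 * r) * u))) := by ring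
  · exact ((hi _ hw').norm).const_mul _
  · refine Eventually.of_forall fun u s _ => ?_
    have h1 : HasDerivAt (fun s : ℂ => -(s * (u : ℂ))) (-(1 * (u : ℂ))) s :=
      ((hasDerivAt_id s).mul_const (u : ℂ)).neg
    have h2 := (h1.cexp).const_mul (f u)
    refine h2.congr_deriv ?_
    ring

theorem main : S_LLP := by
  refine ⟨part1, fun f a hf hi s hs => ⟨part2 f a hf hi s hs, ?_⟩⟩
  have h1 : DifferentiableOn ℂ (fun s : ℂ => ∫ u in Ioi (0 : ℝ), f u * Complex.exp (-(s * u)))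
      {s | a < s.re} := fun s hs => (diff f a hf hi s hs).differentiableWithinAt
  exact h1.analyticAt ((isOpen_lt continuous_const Complex.continuous_re).mem_nhds hs)

end Pool.Agent.N434.LIL
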