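import Pool.Agent.N906.NT.Stm

/-!
# NT/UPB (helper434): upper bound, gains with large primes
-/

set_option autoImplicit false

namespace Pool.Agent.N434.NT

open Finset Filter Topology Pool.Agent.N906.NT

/-! ### Products and radicals -/

theorem pr_pos {n : ℕ} {D : Fin n → ℕ} (h : ∀ i, 1 ≤ D i) : 1 ≤ pr D := by
  unfold pr
  apply Nat.one_le_iff_ne_zero.mpr
  rw [Finset.prod_ne_zero_iff]
  intro i _
  have := h i
  omega

theorem rr_pos {n : ℕ} (D : Fin n → ℕ) : 1 ≤ rr D := by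
  unfold rr
  apply Nat.one_le_iff_ne_zero.mpr
  rw [Finset.prod_ne_zero_iff]
  intro p hp
  exact (Nat.prime_of_mem_primeFactors hp).ne_zero

theorem rr_dvd {n : ℕ} (D : Fin n → ℕ) : rr D ∣ pr D := Nat.prod_primeFactors_dvd _

/-- the gain as a natural number -/
def gN {n : ℕ} (D : Fin n → ℕ) : ℕ := pr D / rr D

theorem gN_mul {n : ℕ} (D : Fin n → ℕ) : rr D * gN D = pr D := Nat.mul_div_cancel' (rr_dvd D)

theorem gn_eq {n : ℕ} (D : Fin n → ℕ) : gn D = (gN D : ℝ) := by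
  have h0 : (rr D : ℝ) ≠ 0 := by
    have := rr_pos D
    positivity
  rw [gn, div_eq_iff h0, ← gN_mul D]
  push_cast
  ring

theorem gN_pos {n : ℕ} {D : Fin n → ℕ} (h : ∀ i, 1 ≤ D i) : 1 ≤ gN D := by
  apply Nat.one_le_iff_ne_zero.mpr
  intro h0
  have h1 := gN_mul D
  rw [h0, mul_zero] at h1
  have := pr_pos h
  omega

theorem dvd_gN {n : ℕ} {D : Fin n → ℕ} (h : ∀ i, 1 ≤ D i) (hS : Sq D) {p : ℕ} (hp : p.Prime)
    (hd : p ∣ pr D) : p ∣ gN D := by
  have hmem : p ∈ (pr D).primeFactors :=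
    Nat.mem_primeFactors.mpr ⟨hp, hd, by have := pr_pos h; omega⟩
  have h1 : rr D = p * ∏ q ∈ (pr D).primeFactors.erase p, q := by
    rw [rr, Finset.mul_prod_erase _ (fun q => q) hmem]
  have h2 := hS p hp hd
  rw [← gN_mul D, h1, sq, mul_assoc] at h2
  have h3 := Nat.dvd_of_mul_dvd_mul_left hp.pos h2
  rcases (Nat.Prime.dvd_mul hp).1 h3 with h4 | h4
  · exfalso
    rw [Prime.dvd_finsetProd_iff hp.prime] at h4
    obtain ⟨q, hq, hpq⟩ := h4
    rw [Finset.mem_erase] at hq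
    have := (Nat.prime_dvd_prime_iff_eq hp (Nat.prime_of_mem_primeFactors hq.2)).1 hpq
    exact hq.1 this.symm
  · exact h4

theorem rr_dvd_gN {n : ℕ} {D : Fin n → ℕ} (h : ∀ i, 1 ≤ D i) (hS : Sq D) : rr D ∣ gN D := by
  unfold rr
  apply Finset.prod_primes_dvd
  · intro p hp
    exact (Nat.prime_of_mem_primeFactors hp).prime
  · intro p hp
    exact dvd_gN h hS (Nat.prime_of_mem_primeFactors hp) (Nat.dvd_of_mem_primeFactors hp)

theorem rr_le_gn {n : ℕ} {D : Fin n → ℕ} (h : ∀ i, 1 ≤ D i) (hS : Sq D) : (rr D : ℝ) ≤ gn D := by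
  rw [gn_eq]
  exact_mod_cast Nat.le_of_dvd (gN_pos h) (rr_dvd_gN h hS)

theorem pr_eq {n : ℕ} (D : Fin n → ℕ) : (pr D : ℝ) = gn D * rr D := by
  rw [gn_eq, ← gN_mul D]
  push_cast
  ring

/-- the complex of all sets with at most `r` elements -/
theorem cx_Dl {n r : ℕ} (hr : 1 ≤ r) (hn : r + 2 ≤ n) : Cx (Dl n r) r (n.choose r) := by
  refine ⟨hr, Nat.choose_pos (by omega), ?_, ?_, ?_, ?_⟩
  · simp [Dl]
  · intro s hs s' hs'
    simp only [Dl, mem_filter, mem_univ, true_and] at hs ⊢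
    exact (Finset.card_le_card hs').trans hs
  · intro s hs
    simpa [Dl] using hs
  · have : (Dl n r).filter (fun s => s.card = r) = Finset.powersetCard r univ := by
      ext s
      simp only [Dl, mem_filter, mem_univ, true_and, Finset.mem_powersetCard, subset_univ]
      constructor
      · exact fun h => h.2
      · exact fun h => ⟨h.le, h⟩
    rw [this, Finset.card_powersetCard, Finset.card_univ, Fintype.card_fin]

theorem tp_ne {n r : ℕ} (hn : r + 2 ≤ n) {D : Fin n → ℕ} (h : Tp (Dl n r) D) (p : ℕ)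
    (hp : p.Prime) : ∃ i, ¬ p ∣ D i := by
  by_contra hcon
  push Not at hcon
  have h1 := h.2 p hp
  rw [Finset.filter_true_of_mem (fun i _ => hcon i)] at h1
  simp only [Dl, mem_filter, mem_univ, true_and, Finset.card_univ, Fintype.card_fin] at h1
  omega

/-- a number all of whose maximal proper divisors are `< T` is prime or `≤ T²` -/
theorem prime_or (n : ℕ) (T : ℝ) (hT : 0 < T) (hn : 2 ≤ n)
    (h : ∀ p : ℕ, p.Prime → p ∣ n → (n : ℝ) / p < T) : n.Prime ∨ (n : ℝ) ≤ T ^ 2 := by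
  by_cases hp : n.Prime
  · exact Or.inl hp
  right
  have hq : n.minFac.Prime := Nat.minFac_prime (by omega)
  obtain ⟨m, hm⟩ := Nat.minFac_dvd n
  have hm1 : m ≠ 1 := by
    intro h1
    rw [h1, mul_one] at hm
    exact hp (hm ▸ hq)
  have hm0 : m ≠ 0 := by
    intro h0
    rw [h0, mul_zero] at hm
    omega
  have hq' : m.minFac.Prime := Nat.minFac_prime hm1
  obtain ⟨k, hk⟩ := Nat.minFac_dvd m
  have hk0 : k ≠ 0 := by
    intro h0
    rw [h0, mul_zero] at hk
    exact hm0 hk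
  set q := n.minFac with hqd
  set q' := m.minFac with hqd'
  have h1 := h q hq ⟨m, hm⟩
  have h2 := h q' hq' ⟨q * k, by rw [hm, hk]; ring⟩
  have hq0 : (0 : ℝ) < q := by exact_mod_cast hq.pos
  have hq0' : (0 : ℝ) < q' := by exact_mod_cast hq'.pos
  have e1 : (n : ℝ) / q = m := by
    rw [div_eq_iff hq0.ne', hm]; push_cast; ring
  have e2 : (n : ℝ) / q' = q * k := by
    rw [div_eq_iff hq0'.ne', hm, hk]; push_cast; ring
  rw [e1] at h1
  rw [e2] at h2
  have hk1 : (1 : ℝ) ≤ k := by exact_mod_cast Nat.one_le_iff_ne_zero.mpr hk0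
  have h3 : (q : ℝ) ≤ T := by nlinarith
  have e3 : (n : ℝ) = q * m := by
    have := congrArg (Nat.cast : ℕ → ℝ) hm
    push_cast at this
    exact this
  rw [e3, sq]
  exact mul_le_mul h3 h1.le (by positivity) hT.le

/-- the tuples whose gain is a prime -/
theorem prime_gain {n : ℕ} {D : Fin n → ℕ} (h : ∀ i, 1 ≤ D i) (hS : Sq D) {q : ℕ} (hq : q.Prime)
    (hg : gN D = q) : (∃ i, q ^ 2 ∣ D i) ∨ ∃ i j, i ≠ j ∧ q ∣ D i ∧ q ∣ D j := by
  classical
  have hpr := pr_pos h
  have hall : ∀ p : ℕ, p.Prime → p ∣ pr D → p = q := by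
    intro p hp hd
    have := dvd_gN h hS hp hd
    rw [hg] at this
    exact (Nat.prime_dvd_prime_iff_eq hp hq).1 this
  have hqd : q ∣ pr D := by
    rw [← gN_mul D, hg]
    exact Dvd.intro_left _ rfl
  have hq2 := hS q hq hqd
  -- some coordinate is divisible by `q`
  obtain ⟨i, -, hi⟩ := (Prime.dvd_finsetProd_iff hq.prime _).1 hqd
  by_cases h2 : q ^ 2 ∣ D i
  · exact Or.inl ⟨i, h2⟩
  right
  have h3 : pr D = D i * ∏ j ∈ univ.erase i, D j := by
    rw [pr, Finset.mul_prod_erase _ D (Finset.mem_univ i)]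
  obtain ⟨m, hm⟩ := hi
  have h4 : ¬ q ∣ m := by
    rintro ⟨m', rfl⟩
    exact h2 ⟨m', by rw [hm]; ring⟩
  rw [h3, hm, sq, mul_assoc] at hq2
  have h5 := Nat.dvd_of_mul_dvd_mul_left hq.pos hq2
  rcases (Nat.Prime.dvd_mul hq).1 h5 with h6 | h6
  · exact absurd h6 h4
  · rw [Prime.dvd_finsetProd_iff hq.prime] at h6
    obtain ⟨j, hj, hqj⟩ := h6
    rw [Finset.mem_erase] at hj
    exact ⟨i, j, hj.1.symm, ⟨m, hm⟩, hqj⟩

/-! ### Sums over the tuples -/

theorem gn_pos {n : ℕ} {D : Fin n → ℕ} (h : ∀ i, 1 ≤ D i) : 1 ≤ gn D := by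
  rw [gn_eq]
  exact_mod_cast gN_pos h

theorem sum_a {n r : ℕ} {u G V : ℝ} (hu1 : u < 1) (hV : 0 < V)
    (S : Finset (Fin n → ℕ)) (hS : ∀ D ∈ S, Tp (Dl n r) D ∧ V < gn D)
    (hG : ∑ D ∈ S, gn D ^ (-u) / (rr D : ℝ) ≤ G) :
    ∑ D ∈ S, 1 / (pr D : ℝ) ≤ V ^ (-(1 - u)) * G := by
  calc ∑ D ∈ S, 1 / (pr D : ℝ) ≤ ∑ D ∈ S, V ^ (-(1 - u)) * (gn D ^ (-u) / (rr D : ℝ)) := by
        apply Finset.sum_le_sum
        intro D hD
        obtain ⟨h1, h2⟩ := hS D hD
        have hg : 0 < gn D := lt_of_lt_of_le one_pos (gn_pos h1.1)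
        have hr : (0 : ℝ) < rr D := by exact_mod_cast rr_pos D
        have e1 : 1 / (pr D : ℝ) = gn D ^ (-(1 - u)) * (gn D ^ (-u) / (rr D : ℝ)) := by
          rw [pr_eq, ← mul_div_assoc, ← Real.rpow_add hg]
          have : -(1 - u) + -u = -1 := by ring
          rw [this, Real.rpow_neg_one]
          field_simp
        rw [e1]
        apply mul_le_mul_of_nonneg_right _ (by positivity)
        exact Real.rpow_le_rpow_of_nonpos hV h2.le (by linarith)
    _ = V ^ (-(1 - u)) * ∑ D ∈ S, gn D ^ (-u) / (rr D : ℝ) := by rw [Finset.mul_sum]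
    _ ≤ V ^ (-(1 - u)) * G := mul_le_mul_of_nonneg_left hG (by positivity)

theorem sum_b {n r : ℕ} {u G R : ℝ} (hu0 : 0 < u) (hR : 0 < R)
    (S : Finset (Fin n → ℕ)) (hS : ∀ D ∈ S, Tp (Dl n r) D ∧ Sq D ∧ gn D ≤ R)
    (hG : ∑ D ∈ S, gn D ^ (-u) / (rr D : ℝ) ≤ G) :
    (S.card : ℝ) ≤ R ^ (1 + u) * G := by
  calc (S.card : ℝ) = ∑ D ∈ S, (1 : ℝ) := by simp
    _ ≤ ∑ D ∈ S, R ^ (1 + u) * (gn D ^ (-u) / (rr D : ℝ)) := by
        apply Finset.sum_le_sum
        intro D hD
        obtain ⟨h1, h2, h3⟩ := hS D hD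
        have hg : 0 < gn D := lt_of_lt_of_le one_pos (gn_pos h1.1)
        have hr : (0 : ℝ) < rr D := by exact_mod_cast rr_pos D
        have h4 := rr_le_gn h1.1 h2
        have h5 : gn D ^ (-(1 + u)) ≤ gn D ^ (-u) / (rr D : ℝ) := by
          have : -(1 + u) = -u - 1 := by ring
          rw [this, Real.rpow_sub hg, Real.rpow_one]
          exact div_le_div_of_nonneg_left (by positivity) hr h4
        have h6 : R ^ (-(1 + u)) ≤ gn D ^ (-(1 + u)) :=
          Real.rpow_le_rpow_of_nonpos hg h3 (by linarith)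
        calc (1 : ℝ) = R ^ (1 + u) * R ^ (-(1 + u)) := by
              rw [← Real.rpow_add hR, add_neg_cancel, Real.rpow_zero]
          _ ≤ R ^ (1 + u) * (gn D ^ (-u) / (rr D : ℝ)) :=
              mul_le_mul_of_nonneg_left (h6.trans h5) (by positivity)
    _ = R ^ (1 + u) * ∑ D ∈ S, gn D ^ (-u) / (rr D : ℝ) := by rw [Finset.mul_sum]
    _ ≤ R ^ (1 + u) * G := mul_le_mul_of_nonneg_left hG (by positivity)

theorem sum_sq (V : ℝ) (hV : 0 < V) (Q : Finset ℕ) (hQ : ∀ q ∈ Q, V < (q : ℝ)) :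
    ∑ q ∈ Q, 1 / ((q : ℝ) ^ 2) ≤ 2 / V := by
  have hsub : Q ⊆ Finset.Ioo ⌊V⌋₊ (Q.sup id + 1) := by
    intro q hq
    rw [Finset.mem_Ioo]
    refine ⟨(Nat.floor_lt hV.le).mpr (hQ q hq), ?_⟩
    have := Finset.le_sup (f := id) hq
    simp only [id_eq] at this
    omega
  calc ∑ q ∈ Q, 1 / ((q : ℝ) ^ 2) ≤ ∑ q ∈ Finset.Ioo ⌊V⌋₊ (Q.sup id + 1), 1 / ((q : ℝ) ^ 2) :=
        Finset.sum_le_sum_of_subset_of_nonneg hsub (fun q _ _ => by positivity)
    _ ≤ 2 / ((⌊V⌋₊ : ℝ) + 1) := by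
        have := sum_Ioo_inv_sq_le (α := ℝ) ⌊V⌋₊ (Q.sup id + 1)
        simpa [one_div] using this
    _ ≤ 2 / V := by
        apply div_le_div_of_nonneg_left (by norm_num) hV (Nat.lt_floor_add_one V).le

/-- UPB from SEQ, PRM and GUPN -/
theorem upb (h1 : S_SEQ) (h2 : S_PRM) (h3 : S_GUPN) : S_UPB := by
  classical
  intro n r κ η hr hn hκ0 hκ1 hη
  obtain ⟨C, hC, hseq⟩ := h1 n (by omega)
  obtain ⟨C', hC', hprm⟩ := h2 n (by omega)
  obtain ⟨u₀, hu0, hu01, hgen⟩ := h3 n (Dl n r) r (n.choose r) 1 0 1 (cx_Dl hr hn) one_pos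
    le_rfl (by norm_num) one_pos
  set u : ℝ := min (u₀ / 2) (min (η / 2) ((1 - 3 * κ) / 2)) with hud
  have hu : 0 < u := lt_min (by positivity) (lt_min (by positivity) (by linarith))
  have huu0 : u < u₀ := (min_le_left _ _).trans_lt (by linarith)
  have hu2 : u ≤ η / 2 := (min_le_right _ _).trans (min_le_left _ _)
  have hu3 : u ≤ (1 - 3 * κ) / 2 := (min_le_right _ _).trans (min_le_right _ _)
  have hu1 : u < 1 / 2 := huu0.trans hu01
  set G : ℝ := Real.exp ((1 + 1) * 1 * (n.choose r : ℕ) /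
    (r * (r * (u * Real.log (1 / u))) ^ r)) with hG
  have hG0 : 0 < G := Real.exp_pos _
  have hgen' : ∀ S : Finset (Fin n → ℕ), (∀ D ∈ S, Tp (Dl n r) D ∧ Sq D) →
      ∑ D ∈ S, gn D ^ (-u) / (rr D : ℝ) ≤ G := by
    intro S hS
    have := hgen u hu huu0 S hS
    refine le_trans (le_of_eq ?_) this
    refine Finset.sum_congr rfl fun D hD => ?_
    rw [one_pow, one_mul, zero_mul, sub_zero, Real.rpow_neg_one, div_eq_mul_inv]
  set c₀ : ℝ := min (η / 4) ((1 - 3 * κ) / 2) with hc₀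
  have hc0 : 0 < c₀ := lt_min (by positivity) (by linarith)
  have hc1 : c₀ ≤ η / 4 := min_le_left _ _
  have hc2 : c₀ ≤ (1 - 3 * κ) / 2 := min_le_right _ _
  set Kt : ℝ := C * 2 ^ n * G * 2 + ((n : ℝ) + n * n) * C' * 2 ^ n * 2 with hKt
  have hev : ∀ᶠ X : ℝ in atTop, Kt ≤ X ^ c₀ := (tendsto_rpow_atTop hc0).eventually_ge_atTop Kt
  obtain ⟨Xa, hXa⟩ := eventually_atTop.mp hev
  refine ⟨max Xa 4, by
    have := le_max_right Xa 4
    linarith, ?_⟩
  intro X T B l F hX hT1 hTX hB hBl hprod hF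
  have hXa' := hXa X ((le_max_left _ _).trans hX)
  have hX4 : (4 : ℝ) ≤ X := (le_max_right _ _).trans hX
  have hX0 : 0 < X := by linarith
  have hX1 : 1 ≤ X := by linarith
  have hT0 : 0 < T := by linarith
  set V : ℝ := T * X ^ η with hV
  have hXη : 1 ≤ X ^ η := Real.one_le_rpow hX1 hη.le
  have hV1 : 1 ≤ V := by rw [hV]; nlinarith
  have hV0 : 0 < V := by linarith
  have hTV : T ≤ V := by rw [hV]; nlinarith
  have hn1 : (1 : ℝ) ≤ 2 ^ n := one_le_pow₀ (by norm_num)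
  set β : ℝ := 2 ^ n * T * X ^ (1 - κ) with hβ
  have hXκ : 1 ≤ X ^ (1 - κ) := Real.one_le_rpow hX1 (by linarith)
  have hβ0 : 0 < β := by positivity
  have hβ1 : 1 ≤ β := by
    rw [hβ]
    have : 1 ≤ 2 ^ n * T := by nlinarith
    nlinarith
  have hβB : ∀ k, β ≤ B k := by
    intro k
    have e1 : ∏ j, B j = B k * ∏ j ∈ univ.erase k, B j := by
      rw [Finset.mul_prod_erase _ B (Finset.mem_univ k)]
    have e2 : ∏ j ∈ univ.erase k, B j ≤ X ^ (n - 1) := by
      calc ∏ j ∈ univ.erase k, B j ≤ ∏ j ∈ univ.erase k, X :=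
            Finset.prod_le_prod (fun j _ => by have := (hB j).1; linarith) (fun j _ => (hB j).2)
        _ = X ^ (n - 1) := by
            rw [Finset.prod_const, Finset.card_erase_of_mem (Finset.mem_univ k),
              Finset.card_univ, Fintype.card_fin]
    have e3 : X ^ ((n : ℝ) - κ) = X ^ (n - 1) * X ^ (1 - κ) := by
      rw [← Real.rpow_natCast X (n - 1), ← Real.rpow_add hX0]
      congr 1
      rw [Nat.cast_sub (by omega)]
      push_cast
      ring
    have hBk : 0 < B k := by have := (hB k).1; linarith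
    have e4 : β * X ^ (n - 1) ≤ B k * X ^ (n - 1) := by
      calc β * X ^ (n - 1) = ∏ j, B j := by rw [hprod, e3, hβ]; ring
        _ = B k * ∏ j ∈ univ.erase k, B j := e1
        _ ≤ B k * X ^ (n - 1) := mul_le_mul_of_nonneg_left e2 hBk.le
    exact le_of_mul_le_mul_right e4 (by positivity)
  set Z : ℝ := X ^ ((n : ℝ) - 1 - κ) with hZ
  have hZ0 : 0 < Z := by positivity
  have hPX : ∏ k, B k = X * (2 ^ n * T * Z) := by
    rw [hprod]
    have : (n : ℝ) - κ = 1 + ((n : ℝ) - 1 - κ) := by ring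
    rw [this, Real.rpow_add hX0, Real.rpow_one, hZ]
    ring
  have hPl : ∏ k ∈ univ.erase l, B k = 2 ^ n * T * Z := by
    have e1 : ∏ j, B j = B l * ∏ j ∈ univ.erase l, B j := by
      rw [Finset.mul_prod_erase _ B (Finset.mem_univ l)]
    rw [hPX, hBl] at e1
    exact (mul_left_cancel₀ hX0.ne' e1).symm
  -- the sets
  set D1 : Finset (Fin n → ℕ) := (Fintype.piFinset fun _ : Fin n => Finset.Icc 1 ⌊T ^ 4⌋₊).filter
    (fun D => Tp (Dl n r) D ∧ Sq D ∧ V < gn D ∧ gn D ≤ T ^ 2) with hD1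
  set Q : Finset ℕ := (Finset.Icc 1 ⌊X⌋₊).filter (fun q => q.Prime ∧ V < (q : ℝ)) with hQ
  set F1 := F.filter (fun x => ∃ D ∈ D1, ∀ i, (D i : ℤ) ∣ x i) with hF1
  set F2 := F.filter (fun x => ∃ q ∈ Q, ∃ i, ((q : ℤ)) ^ 2 ∣ x i) with hF2
  set F3 := F.filter (fun x => ∃ q ∈ Q, ∃ i j, i ≠ j ∧ (q : ℤ) ∣ x i ∧ (q : ℤ) ∣ x j) with hF3
  have hcov : F ⊆ F1 ∪ F2 ∪ F3 := by
    intro x hx
    rw [Finset.mem_union, Finset.mem_union, hF1, hF2, hF3, Finset.mem_filter, Finset.mem_filter,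
      Finset.mem_filter]
    obtain ⟨-, -, hxB, D, hDx, hTp, hSq, hgV, hgp⟩ := hF x hx
    have hD0 := hTp.1
    by_cases hle : gn D ≤ T ^ 2
    · left; left
      refine ⟨hx, D, ?_, hDx⟩
      rw [hD1, Finset.mem_filter, Fintype.mem_piFinset]
      refine ⟨fun i => ?_, hTp, hSq, hgV, hle⟩
      rw [Finset.mem_Icc]
      refine ⟨hD0 i, Nat.le_floor ?_⟩
      have h5 : D i ∣ pr D := Finset.dvd_prod_of_mem D (Finset.mem_univ i)
      have h6 : D i ≤ pr D := Nat.le_of_dvd (pr_pos hD0) h5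
      have h7 : (D i : ℝ) ≤ pr D := by exact_mod_cast h6
      refine h7.trans ?_
      rw [pr_eq]
      have h8 := rr_le_gn hD0 hSq
      have h9 := gn_pos hD0
      have h10 : (0 : ℝ) < rr D := by exact_mod_cast rr_pos D
      calc gn D * rr D ≤ T ^ 2 * T ^ 2 :=
            mul_le_mul hle (h8.trans hle) h10.le (by positivity)
        _ = T ^ 4 := by ring
    · push Not at hle
      rw [gn_eq] at hle hgV
      have hN1 : 1 < gN D := by
        have : (1 : ℝ) < gN D := by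
          have : (1 : ℝ) ≤ T ^ 2 := one_le_pow₀ hT1
          linarith
        exact_mod_cast this
      have hpr := prime_or (gN D) T hT0 (by omega) (by
        intro p hp hd
        have h5 : p ∣ pr D := by
          rw [← gN_mul D]
          exact Dvd.dvd.mul_left hd _
        have := hgp p hp h5
        rwa [gn_eq] at this)
      rcases hpr with hpr | hpr
      · have hqQ : (∃ k, (gN D : ℤ) ∣ x k) → gN D ∈ Q := by
          rintro ⟨k, hk⟩
          rw [hQ, Finset.mem_filter, Finset.mem_Icc]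
          refine ⟨⟨hpr.one_lt.le, Nat.le_floor ?_⟩, hpr, hgV⟩
          have hxk : x k ≠ 0 := by
            intro h0
            have h5 := (hxB k).1
            rw [h0] at h5
            have := (hB k).1
            simp at h5
            linarith
          have h5 : ((gN D : ℤ)) ≤ |x k| := Int.le_of_dvd (abs_pos.mpr hxk) ((dvd_abs _ _).mpr hk)
          have h6 : (gN D : ℝ) ≤ |(x k : ℝ)| := by
            have : (((gN D : ℤ)) : ℝ) ≤ ((|x k| : ℤ) : ℝ) := by exact_mod_cast h5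
            rw [Int.cast_abs] at this
            exact_mod_cast this
          exact h6.trans ((hxB k).2.trans (hB k).2)
        rcases prime_gain hD0 hSq hpr rfl with ⟨i, hi⟩ | ⟨i, j, hij, hi, hj⟩
        · left; right
          have h5 : ((gN D : ℤ)) ^ 2 ∣ x i := by
            have : (((gN D) ^ 2 : ℕ) : ℤ) ∣ x i := (Int.natCast_dvd_natCast.mpr hi).trans (hDx i)
            exact_mod_cast this
          exact ⟨hx, gN D, hqQ ⟨i, (Dvd.intro_left _ (by ring)).trans h5⟩, i, h5⟩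
        · right
          have h5 : ((gN D : ℤ)) ∣ x i := (Int.natCast_dvd_natCast.mpr hi).trans (hDx i)
          have h6 : ((gN D : ℤ)) ∣ x j := (Int.natCast_dvd_natCast.mpr hj).trans (hDx j)
          exact ⟨hx, gN D, hqQ ⟨i, h5⟩, i, j, hij, h5, h6⟩
      · exact absurd hpr (not_le.mpr hle)
  -- the first part
  have hb1 : (F1.card : ℝ) ≤ C * 2 ^ n * G * 2 * (Z * X ^ (-c₀)) := by
    have hD1' : ∀ D ∈ D1, Tp (Dl n r) D ∧ Sq D ∧ V < gn D ∧ gn D ≤ T ^ 2 := fun D hD =>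
      (Finset.mem_filter.mp hD).2
    have hsub : F1 ⊆ D1.biUnion (fun D => F.filter (fun x => ∀ i, (D i : ℤ) ∣ x i)) := by
      intro x hx
      rw [hF1, Finset.mem_filter] at hx
      obtain ⟨hx1, D, hD, hDx⟩ := hx
      rw [Finset.mem_biUnion]
      exact ⟨D, hD, Finset.mem_filter.mpr ⟨hx1, hDx⟩⟩
    have hT2 : T ^ 2 ≤ X ^ (1 - κ) := by
      calc T ^ 2 ≤ (X ^ κ) ^ 2 := pow_le_pow_left₀ hT0.le hTX 2
        _ = X ^ (2 * κ) := by
            rw [← Real.rpow_natCast (X ^ κ) 2, ← Real.rpow_mul hX0.le]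
            congr 1
            push_cast
            ring
        _ ≤ X ^ (1 - κ) := Real.rpow_le_rpow_of_exponent_le hX1 (by linarith)
    have hcardD : ∀ D ∈ D1, ((F.filter (fun x => ∀ i, (D i : ℤ) ∣ x i)).card : ℝ) ≤
        C * (2 ^ n * T * Z) * (1 / (pr D : ℝ) + 1 / β) := by
      intro D hD
      obtain ⟨h5, h6, h7, h8⟩ := hD1' D hD
      rw [← hPl]
      apply hseq D l B β h5.1 (fun p hp => tp_ne hn h5 p hp) hβ1 (fun k _ => hβB k)
      · rw [pr_eq]
        have h9 := rr_le_gn h5.1 h6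
        have h10 : (0 : ℝ) < rr D := by exact_mod_cast rr_pos D
        have h11 : T ^ 2 ≤ β := by
          rw [hβ]
          have h12 : X ^ (1 - κ) ≤ 2 ^ n * T * X ^ (1 - κ) := by
            have : 1 ≤ 2 ^ n * T := by nlinarith
            nlinarith
          linarith
        calc gn D * rr D ≤ β * β := mul_le_mul (h8.trans h11) ((h9.trans h8).trans h11) h10.le hβ0.le
          _ = β ^ 2 := by ring
      · intro x hx
        rw [Finset.mem_filter] at hx
        obtain ⟨h9, -, h10, -⟩ := hF x hx.1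
        exact ⟨h9, hx.2, fun k _ => (h10 k).2⟩
    have hsa := sum_a (r := r) (hu1.trans (by norm_num) : u < 1) hV0 D1
      (fun D hD => ⟨(hD1' D hD).1, (hD1' D hD).2.2.1⟩)
      (hgen' D1 fun D hD => ⟨(hD1' D hD).1, (hD1' D hD).2.1⟩)
    have hsb := sum_b (r := r) hu (by positivity : (0 : ℝ) < T ^ 2) D1
      (fun D hD => ⟨(hD1' D hD).1, (hD1' D hD).2.1, (hD1' D hD).2.2.2⟩)
      (hgen' D1 fun D hD => ⟨(hD1' D hD).1, (hD1' D hD).2.1⟩)
    have hc : (F1.card : ℝ) ≤ C * (2 ^ n * T * Z) * (V ^ (-(1 - u)) * G +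
        (T ^ 2) ^ (1 + u) * G * (1 / β)) := by
      calc (F1.card : ℝ) ≤ ((∑ D ∈ D1, (F.filter (fun x => ∀ i, (D i : ℤ) ∣ x i)).card : ℕ) : ℝ) := by
            exact_mod_cast (Finset.card_le_card hsub).trans Finset.card_biUnion_le
        _ = ∑ D ∈ D1, ((F.filter (fun x => ∀ i, (D i : ℤ) ∣ x i)).card : ℝ) := by push_cast; rfl
        _ ≤ ∑ D ∈ D1, C * (2 ^ n * T * Z) * (1 / (pr D : ℝ) + 1 / β) :=
            Finset.sum_le_sum hcardD
        _ = C * (2 ^ n * T * Z) * (∑ D ∈ D1, 1 / (pr D : ℝ) + D1.card * (1 / β)) := by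
            rw [← Finset.mul_sum, Finset.sum_add_distrib, Finset.sum_const, nsmul_eq_mul]
        _ ≤ _ := by
            apply mul_le_mul_of_nonneg_left _ (by positivity)
            apply add_le_add hsa
            exact mul_le_mul_of_nonneg_right hsb (by positivity)
    have hfirst : T * V ^ (-(1 - u)) ≤ X ^ (-c₀) := by
      have e1 : T * V ^ (-(1 - u)) = T ^ u * X ^ (-(η * (1 - u))) := by
        rw [hV, Real.mul_rpow hT0.le (by positivity), ← Real.rpow_mul hX0.le, ← mul_assoc]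
        congr 1
        · nth_rewrite 1 [← Real.rpow_one T]
          rw [← Real.rpow_add hT0]
          congr 1
          ring
        · congr 1
          ring
      rw [e1]
      calc T ^ u * X ^ (-(η * (1 - u))) ≤ X ^ (κ * u) * X ^ (-(η * (1 - u))) := by
            apply mul_le_mul_of_nonneg_right _ (by positivity)
            calc T ^ u ≤ (X ^ κ) ^ u := Real.rpow_le_rpow hT0.le hTX hu.le
              _ = X ^ (κ * u) := by rw [← Real.rpow_mul hX0.le]
        _ = X ^ (κ * u + -(η * (1 - u))) := by rw [← Real.rpow_add hX0]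
        _ ≤ X ^ (-c₀) := by
            apply Real.rpow_le_rpow_of_exponent_le hX1
            nlinarith
    have hsecond : T * ((T ^ 2) ^ (1 + u) * (1 / β)) ≤ X ^ (-c₀) := by
      have e1 : (T ^ 2) ^ (1 + u) = T ^ (2 * (1 + u)) := by
        rw [← Real.rpow_natCast T 2, ← Real.rpow_mul hT0.le]
        norm_num
      have e2 : T * ((T ^ 2) ^ (1 + u) * (1 / β)) = T ^ (2 * (1 + u)) * X ^ (-(1 - κ)) / 2 ^ n := by
        rw [e1, hβ, Real.rpow_neg hX0.le]
        field_simp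
      rw [e2]
      calc T ^ (2 * (1 + u)) * X ^ (-(1 - κ)) / 2 ^ n ≤ T ^ (2 * (1 + u)) * X ^ (-(1 - κ)) :=
            div_le_self (by positivity) hn1
        _ ≤ X ^ (κ * (2 * (1 + u))) * X ^ (-(1 - κ)) := by
            apply mul_le_mul_of_nonneg_right _ (by positivity)
            calc T ^ (2 * (1 + u)) ≤ (X ^ κ) ^ (2 * (1 + u)) :=
                  Real.rpow_le_rpow hT0.le hTX (by positivity)
              _ = X ^ (κ * (2 * (1 + u))) := by rw [← Real.rpow_mul hX0.le]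
        _ = X ^ (κ * (2 * (1 + u)) + -(1 - κ)) := by rw [← Real.rpow_add hX0]
        _ ≤ X ^ (-c₀) := by
            apply Real.rpow_le_rpow_of_exponent_le hX1
            nlinarith
    calc (F1.card : ℝ) ≤ C * (2 ^ n * T * Z) * (V ^ (-(1 - u)) * G +
          (T ^ 2) ^ (1 + u) * G * (1 / β)) := hc
      _ = C * 2 ^ n * G * Z * (T * V ^ (-(1 - u)) + T * ((T ^ 2) ^ (1 + u) * (1 / β))) := by ring
      _ ≤ C * 2 ^ n * G * Z * (X ^ (-c₀) + X ^ (-c₀)) := by
          apply mul_le_mul_of_nonneg_left _ (by positivity)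
          exact add_le_add hfirst hsecond
      _ = _ := by ring
  -- the second and the third part
  have hqsum := sum_sq V hV0 Q (fun q hq => (Finset.mem_filter.mp hq).2.2)
  have hTV' : T * (2 / V) ≤ 2 * X ^ (-c₀) := by
    have e1 : T * (2 / V) = 2 * X ^ (-η) := by
      rw [hV, Real.rpow_neg hX0.le]
      field_simp
    rw [e1]
    apply mul_le_mul_of_nonneg_left _ (by norm_num)
    apply Real.rpow_le_rpow_of_exponent_le hX1
    linarith
  have hterm : ∀ q : ℕ, C' * (∏ k, B k) / (X * (q : ℝ) ^ 2) =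
      C' * (2 ^ n * T * Z) * (1 / (q : ℝ) ^ 2) := by
    intro q
    rw [hPX]
    by_cases hq : (q : ℝ) = 0
    · rw [hq]; simp
    · field_simp
  have hb2 : (F2.card : ℝ) ≤ (n : ℝ) * C' * 2 ^ n * 2 * (Z * X ^ (-c₀)) := by
    have hsub : F2 ⊆ Q.biUnion (fun q => (univ : Finset (Fin n)).biUnion
        (fun i => F.filter (fun x => ((q : ℤ)) ^ 2 ∣ x i))) := by
      intro x hx
      rw [hF2, Finset.mem_filter] at hx
      obtain ⟨hx1, q, hq, i, hi⟩ := hx
      rw [Finset.mem_biUnion]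
      refine ⟨q, hq, ?_⟩
      rw [Finset.mem_biUnion]
      exact ⟨i, Finset.mem_univ i, Finset.mem_filter.mpr ⟨hx1, hi⟩⟩
    calc (F2.card : ℝ) ≤ ((∑ q ∈ Q, ∑ i : Fin n,
          (F.filter (fun x => ((q : ℤ)) ^ 2 ∣ x i)).card : ℕ) : ℝ) := by
          have := (Finset.card_le_card hsub).trans (Finset.card_biUnion_le.trans
            (Finset.sum_le_sum fun q _ => Finset.card_biUnion_le))
          exact_mod_cast this
      _ = ∑ q ∈ Q, ∑ i : Fin n, ((F.filter (fun x => ((q : ℤ)) ^ 2 ∣ x i)).card : ℝ) := by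
          push_cast; rfl
      _ ≤ ∑ q ∈ Q, ∑ i : Fin n, C' * (2 ^ n * T * Z) * (1 / (q : ℝ) ^ 2) := by
          apply Finset.sum_le_sum
          intro q hq
          apply Finset.sum_le_sum
          intro i _
          rw [← hterm q]
          have hqp : q.Prime := (Finset.mem_filter.mp hq).2.1
          apply (hprm X B q l hqp hB hBl).1 i
          intro x hx
          rw [Finset.mem_filter] at hx
          obtain ⟨h5, h6, h7, -⟩ := hF x hx.1
          exact ⟨h5, h7, hx.2⟩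
      _ = (n : ℝ) * C' * 2 ^ n * Z * (T * ∑ q ∈ Q, 1 / (q : ℝ) ^ 2) := by
          simp only [Finset.sum_const, Finset.card_univ, Fintype.card_fin, nsmul_eq_mul]
          rw [← Finset.mul_sum, ← Finset.mul_sum]
          ring
      _ ≤ (n : ℝ) * C' * 2 ^ n * Z * (2 * X ^ (-c₀)) := by
          apply mul_le_mul_of_nonneg_left _ (by positivity)
          exact (mul_le_mul_of_nonneg_left hqsum hT0.le).trans hTV'
      _ = _ := by ring
  have hb3 : (F3.card : ℝ) ≤ ((n : ℝ) * n) * C' * 2 ^ n * 2 * (Z * X ^ (-c₀)) := by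
    have hsub : F3 ⊆ Q.biUnion (fun q => (univ : Finset (Fin n × Fin n)).biUnion
        (fun i => F.filter (fun x => i.1 ≠ i.2 ∧ (q : ℤ) ∣ x i.1 ∧ (q : ℤ) ∣ x i.2))) := by
      intro x hx
      rw [hF3, Finset.mem_filter] at hx
      obtain ⟨hx1, q, hq, i, j, hij, hi, hj⟩ := hx
      rw [Finset.mem_biUnion]
      refine ⟨q, hq, ?_⟩
      rw [Finset.mem_biUnion]
      exact ⟨(i, j), Finset.mem_univ _, Finset.mem_filter.mpr ⟨hx1, hij, hi, hj⟩⟩
    calc (F3.card : ℝ) ≤ ((∑ q ∈ Q, ∑ i : Fin n × Fin n,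
          (F.filter (fun x => i.1 ≠ i.2 ∧ (q : ℤ) ∣ x i.1 ∧ (q : ℤ) ∣ x i.2)).card : ℕ) : ℝ) := by
          have := (Finset.card_le_card hsub).trans (Finset.card_biUnion_le.trans
            (Finset.sum_le_sum fun q _ => Finset.card_biUnion_le))
          exact_mod_cast this
      _ = ∑ q ∈ Q, ∑ i : Fin n × Fin n,
          ((F.filter (fun x => i.1 ≠ i.2 ∧ (q : ℤ) ∣ x i.1 ∧ (q : ℤ) ∣ x i.2)).card : ℝ) := by
          push_cast; rfl
      _ ≤ ∑ q ∈ Q, ∑ i : Fin n × Fin n, C' * (2 ^ n * T * Z) * (1 / (q : ℝ) ^ 2) := by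
          apply Finset.sum_le_sum
          intro q hq
          apply Finset.sum_le_sum
          intro i _
          by_cases hij : i.1 = i.2
          · have : F.filter (fun x => i.1 ≠ i.2 ∧ (q : ℤ) ∣ x i.1 ∧ (q : ℤ) ∣ x i.2) = ∅ := by
              rw [Finset.filter_eq_empty_iff]
              intro x _ hx
              exact hx.1 hij
            rw [this]
            simp only [Finset.card_empty, Nat.cast_zero]
            positivity
          rw [← hterm q]
          have hqp : q.Prime := (Finset.mem_filter.mp hq).2.1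
          apply (hprm X B q l hqp hB hBl).2 i.1 i.2 _ hij
          intro x hx
          rw [Finset.mem_filter] at hx
          obtain ⟨h5, h6, h7, -⟩ := hF x hx.1
          exact ⟨h5, h6, h7, hx.2.2.1, hx.2.2.2⟩
      _ = ((n : ℝ) * n) * C' * 2 ^ n * Z * (T * ∑ q ∈ Q, 1 / (q : ℝ) ^ 2) := by
          simp only [Finset.sum_const, Finset.card_univ, Fintype.card_prod, Fintype.card_fin,
            nsmul_eq_mul]
          rw [← Finset.mul_sum, ← Finset.mul_sum]
          push_cast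
          ring
      _ ≤ ((n : ℝ) * n) * C' * 2 ^ n * Z * (2 * X ^ (-c₀)) := by
          apply mul_le_mul_of_nonneg_left _ (by positivity)
          exact (mul_le_mul_of_nonneg_left hqsum hT0.le).trans hTV'
      _ = _ := by ring
  have hcard : (F.card : ℝ) ≤ F1.card + F2.card + F3.card := by
    have h5 : F.card ≤ F1.card + F2.card + F3.card := by
      refine (Finset.card_le_card hcov).trans ?_
      refine (Finset.card_union_le _ _).trans ?_
      exact Nat.add_le_add_right (Finset.card_union_le _ _) _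
    exact_mod_cast h5
  calc (F.card : ℝ) ≤ Kt * (Z * X ^ (-c₀)) := by
        rw [hKt]
        linarith
    _ ≤ X ^ c₀ * (Z * X ^ (-c₀)) := mul_le_mul_of_nonneg_right hXa' (by positivity)
    _ = Z * (X ^ c₀ * X ^ (-c₀)) := by ring
    _ = Z := by rw [← Real.rpow_add hX0, add_neg_cancel, Real.rpow_zero, mul_one]

end Pool.Agent.N434.NT
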